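import Mathlib

set_option autoImplicit false

/-!
# Designs whose blocks are detected by a sum: definitions and lemmas

Used by `Pool.Agent.Results.MP_c38931_co.SumsOfPairs` and
`Pool.Agent.Results.MP_c38931_co.DetectionInSmallExponent`.
-/

namespace Pool.Agent.Helper394.SD

open Finset Matrix

/-- The blocks `B i` (`i : Fin v`) form a symmetric `2-(v, k, lam)` design on the points `Fin v`
with `2 ≤ k < v`. -/
structure IsSymmetricDesign (v k lam : ℕ) (B : Fin v → Finset (Fin v)) : Prop where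
  two_le : 2 ≤ k
  lt : k < v
  size : ∀ i, (B i).card = k
  pair : ∀ x y : Fin v, x ≠ y →
    (Finset.univ.filter (fun i => x ∈ B i ∧ y ∈ B i)).card = lam

/-- The blocks `B i` (`i : ι`) form a `2-(v, k, lam)` design on the points `Fin v` with `2 ≤ k < v`, in
which two different blocks have at most `lam` common points. -/
structure IsMeetDesign (v k lam : ℕ) {ι : Type} [Fintype ι] (B : ι → Finset (Fin v)) : Prop where
  two_le : 2 ≤ k
  lt : k < v
  size : ∀ i, (B i).card = k
  pair : ∀ x y : Fin v, x ≠ y →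
    (Finset.univ.filter (fun i => x ∈ B i ∧ y ∈ B i)).card = lam
  meet : ∀ i j, i ≠ j → (B i ∩ B j).card ≤ lam

/-- Whether a set of `k` points is a block depends only on the sum of the values of `f` on it. -/
def SumDetected {v : ℕ} {ι G : Type} [AddCommGroup G] (k : ℕ) (B : ι → Finset (Fin v))
    (f : Fin v → G) : Prop :=
  ∀ X Y : Finset (Fin v), X.card = k → Y.card = k → ∑ x ∈ X, f x = ∑ y ∈ Y, f y →
    (∃ i, B i = X) → ∃ i, B i = Y

/-! ### Classical facts on symmetric designs (as in `Pool.Agent.H951R4.OD.Design`) -/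

theorem repl (v k lam : ℕ) (hv : 2 ≤ v) (hlam : 1 ≤ lam) (B : Fin v → Finset (Fin v))
    (hk : ∀ i, (B i).card = k)
    (hp : ∀ x y : Fin v, x ≠ y →
      (Finset.univ.filter (fun i => x ∈ B i ∧ y ∈ B i)).card = lam) :
    (∀ x, (Finset.univ.filter (fun i => x ∈ B i)).card = k) ∧ k * k = lam * (v - 1) + k := by
  classical
  have h1 : ∀ x, (Finset.univ.filter (fun i => x ∈ B i)).card * k
      = (Finset.univ.filter (fun i => x ∈ B i)).card + lam * (v - 1) := by
    intro x
    have e1 : ∑ y : Fin v, (Finset.univ.filter (fun i => x ∈ B i ∧ y ∈ B i)).card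
        = (Finset.univ.filter (fun i => x ∈ B i)).card * k := by
      simp_rw [Finset.card_filter]
      rw [Finset.sum_comm, Finset.sum_mul]
      refine Finset.sum_congr rfl fun i _ => ?_
      by_cases hx : x ∈ B i
      · simp [hx, hk i]
      · simp [hx]
    rw [← e1, ← Finset.add_sum_erase _ _ (Finset.mem_univ x)]
    congr 1
    · simp
    · rw [Finset.sum_congr rfl (g := fun _ => lam)]
      · simp [Finset.card_erase_of_mem, mul_comm]
      · intro y hy
        exact hp x y (Finset.ne_of_mem_erase hy).symm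
  have hpos : 1 ≤ lam * (v - 1) := by
    have : 1 ≤ v - 1 := by omega
    exact Nat.mul_pos hlam this
  set r : Fin v → ℕ := fun x => (Finset.univ.filter (fun i => x ∈ B i)).card with hr
  have hk2 : 2 ≤ k := by
    by_contra hcon
    have h2 := h1 ⟨0, by omega⟩
    interval_cases k <;> simp at h2 <;> omega
  have hconst : ∀ x y, r x = r y := by
    intro x y
    have hx := h1 x
    have hy := h1 y
    obtain ⟨k', rfl⟩ : ∃ k', k = k' + 1 := ⟨k - 1, by omega⟩
    have hx' : r x * k' = lam * (v - 1) := by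
      have : r x * (k' + 1) = r x + lam * (v - 1) := hx
      rw [mul_add, mul_one] at this; omega
    have hy' : r y * k' = lam * (v - 1) := by
      have : r y * (k' + 1) = r y + lam * (v - 1) := hy
      rw [mul_add, mul_one] at this; omega
    have : r x * k' = r y * k' := by rw [hx', hy']
    exact Nat.eq_of_mul_eq_mul_right (by omega) this
  have hsum : ∑ x, r x = v * k := by
    simp only [hr]
    simp_rw [Finset.card_filter]
    rw [Finset.sum_comm]
    rw [Finset.sum_congr rfl (g := fun _ => k)]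
    · simp
    · intro i _
      rw [← hk i]; simp
  have hrk : ∀ x, r x = k := by
    intro x
    have : ∑ y, r y = v * r x := by
      rw [Finset.sum_congr rfl (g := fun _ => r x) (fun y _ => hconst y x)]; simp
    rw [this] at hsum
    exact Nat.eq_of_mul_eq_mul_left (by omega) hsum
  refine ⟨hrk, ?_⟩
  have h2 := h1 ⟨0, by omega⟩
  have h3 := hrk ⟨0, by omega⟩
  simp only [hr] at h3
  rw [h3] at h2
  omega

/-- incidence matrix -/
def inc {v : ℕ} (B : Fin v → Finset (Fin v)) : Matrix (Fin v) (Fin v) ℚ :=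
  fun i x => if x ∈ B i then 1 else 0

section
variable {v k lam : ℕ} {B : Fin v → Finset (Fin v)}

lemma inc_tmul (hv : 2 ≤ v) (hlam : 1 ≤ lam)
    (hk : ∀ i, (B i).card = k)
    (hp : ∀ x y : Fin v, x ≠ y →
      (Finset.univ.filter (fun i => x ∈ B i ∧ y ∈ B i)).card = lam) :
    (inc B)ᵀ * inc B = ((k : ℚ) - lam) • (1 : Matrix (Fin v) (Fin v) ℚ) +
      (lam : ℚ) • (Matrix.of fun _ _ => (1 : ℚ)) := by
  obtain ⟨hr, -⟩ := repl v k lam hv hlam B hk hp
  ext x y
  have h1 : ((inc B)ᵀ * inc B) x y =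
      ((Finset.univ.filter (fun i => x ∈ B i ∧ y ∈ B i)).card : ℚ) := by
    rw [Matrix.mul_apply]
    have h2 : ∀ i, (inc B)ᵀ x i * inc B i y = if (x ∈ B i ∧ y ∈ B i) then 1 else 0 := by
      intro i
      simp only [inc, Matrix.transpose_apply]
      split_ifs <;> simp_all
    rw [Finset.sum_congr rfl (fun h _ => h2 h), Finset.sum_boole]
  rw [h1]
  simp only [Matrix.add_apply, Matrix.smul_apply, smul_eq_mul, Matrix.of_apply, mul_one]
  by_cases hxy : x = y
  · subst hxy
    rw [Matrix.one_apply_eq]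
    have : (Finset.univ.filter (fun i => x ∈ B i ∧ x ∈ B i)) =
      (Finset.univ.filter (fun i => x ∈ B i)) := by simp
    rw [this, hr x]
    ring
  · rw [Matrix.one_apply_ne hxy, hp x y hxy]
    ring

lemma det_nJ (n : ℚ) (l : ℚ) (hn : 0 < n) (hl : 0 ≤ l) :
    (n • (1 : Matrix (Fin v) (Fin v) ℚ) + l • (Matrix.of fun _ _ => (1 : ℚ))).det ≠ 0 := by
  have h3 : (n • (1 : Matrix (Fin v) (Fin v) ℚ) + l • (Matrix.of fun _ _ => (1 : ℚ))) =
      n • ((1 : Matrix (Fin v) (Fin v) ℚ) +
      replicateCol Unit (fun _ => (l / n)) * replicateRow Unit (fun _ => (1 : ℚ))) := by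
    ext i j
    simp only [Matrix.add_apply, Matrix.smul_apply, smul_eq_mul, Matrix.mul_apply,
      Matrix.replicateCol_apply, Matrix.replicateRow_apply, Finset.univ_unique, Finset.sum_const,
      Finset.card_singleton, one_smul, mul_one, Matrix.of_apply]
    field_simp
  rw [h3, Matrix.det_smul, Matrix.det_one_add_replicateCol_mul_replicateRow]
  have h4 : (fun _ : Fin v => (1 : ℚ)) ⬝ᵥ (fun _ => (l / n)) = v * (l / n) := by
    simp [dotProduct]
  rw [h4]
  positivity

/-- facts on symmetric designs -/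
lemma design_facts (hv : 2 ≤ v) (hlam : 1 ≤ lam) (hkv : k < v)
    (hk : ∀ i, (B i).card = k)
    (hp : ∀ x y : Fin v, x ≠ y →
      (Finset.univ.filter (fun i => x ∈ B i ∧ y ∈ B i)).card = lam) :
    lam < k ∧ ∀ i j, i ≠ j → (B i ∩ B j).card = lam := by
  obtain ⟨hr, hcount⟩ := repl v k lam hv hlam B hk hp
  have hk1 : 1 ≤ k := by
    by_contra h
    have h0 : k = 0 := by omega
    subst h0
    have : 1 ≤ lam * (v - 1) := Nat.mul_pos hlam (by omega)
    omega
  have hlk : lam < k := by
    by_contra h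
    push Not at h
    have h1 : k * (v - 1) ≤ lam * (v - 1) := Nat.mul_le_mul_right _ h
    have h2 : k * k ≤ k * (v - 1) := Nat.mul_le_mul_left _ (by omega)
    omega
  have hn : (0 : ℚ) < (k : ℚ) - lam := by
    have : (lam : ℚ) < k := by exact_mod_cast hlk
    linarith
  have hT := inc_tmul hv hlam hk hp
  have hdet : (inc B).det ≠ 0 := by
    intro h
    have h1 := congrArg Matrix.det hT
    rw [Matrix.det_mul, h, mul_zero] at h1
    exact det_nJ _ _ hn (by positivity) h1.symm
  refine ⟨hlk, ?_⟩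
  -- M J = k J and J M = k J
  set M := inc B with hM
  set J : Matrix (Fin v) (Fin v) ℚ := Matrix.of fun _ _ => (1 : ℚ) with hJ
  have hMJ : M * J = (k : ℚ) • J := by
    ext i x
    simp only [Matrix.mul_apply, hJ, Matrix.of_apply, mul_one, Matrix.smul_apply, smul_eq_mul, hM,
      inc, Finset.sum_boole]
    rw [← hk i]
    congr 2
    ext y; simp
  have hJM : J * M = (k : ℚ) • J := by
    ext i x
    simp only [Matrix.mul_apply, hJ, Matrix.of_apply, one_mul, mul_one, Matrix.smul_apply,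
      smul_eq_mul, hM, inc, Finset.sum_boole]
    exact_mod_cast hr x
  have hunit : IsUnit M.det := isUnit_iff_ne_zero.2 hdet
  have h1 : (M * Mᵀ - (((k : ℚ) - lam) • (1 : Matrix (Fin v) (Fin v) ℚ) + (lam : ℚ) • J)) * M = 0 := by
    rw [Matrix.sub_mul, Matrix.mul_assoc, hT, Matrix.mul_add, Matrix.add_mul]
    simp only [Matrix.mul_smul, Matrix.smul_mul, Matrix.mul_one, Matrix.one_mul, hMJ, hJM]
    abel
  have h2 : M * Mᵀ = ((k : ℚ) - lam) • (1 : Matrix (Fin v) (Fin v) ℚ) + (lam : ℚ) • J := by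
    have h3 := congrArg (fun A => A * M⁻¹) h1
    simp only [Matrix.zero_mul] at h3
    rw [Matrix.mul_assoc, Matrix.mul_nonsing_inv _ hunit, Matrix.mul_one] at h3
    exact sub_eq_zero.1 h3
  intro i j hij
  have h3 := congrFun (congrFun h2 i) j
  simp only [Matrix.add_apply, Matrix.smul_apply, smul_eq_mul, hJ, Matrix.of_apply, mul_one,
    Matrix.one_apply_ne hij, mul_zero, zero_add] at h3
  rw [Matrix.mul_apply] at h3
  have h4 : ∀ x, M i x * Mᵀ x j = if (x ∈ B i ∧ x ∈ B j) then 1 else 0 := by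
    intro x
    simp only [hM, inc, Matrix.transpose_apply]
    split_ifs <;> simp_all
  rw [Finset.sum_congr rfl (fun h _ => h4 h), Finset.sum_boole] at h3
  have h5 : (univ.filter (fun x => x ∈ B i ∧ x ∈ B j)) = B i ∩ B j := by
    ext x; simp
  rw [h5] at h3
  exact_mod_cast h3

end

/-- symmetric designs are meet designs -/
lemma IsSymmetricDesign.meetDesign {v k lam : ℕ} {B : Fin v → Finset (Fin v)}
    (h : IsSymmetricDesign v k lam B) (hlam : 1 ≤ lam) : IsMeetDesign v k lam B where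
  two_le := h.two_le
  lt := h.lt
  size := h.size
  pair := h.pair
  meet := fun i j hij => by
    have h1 := h.two_le
    have h2 := h.lt
    exact ((design_facts (by omega) hlam h.lt h.size h.pair).2 i j hij).le

/-! ### Exchanges -/

section
variable {v k lam : ℕ} {ι : Type} {B : ι → Finset (Fin v)} {G : Type} [AddCommGroup G]
  {f : Fin v → G}

/-- a set `A` of points of a block cannot be exchanged for a set `C` outside with the same sum -/
lemma swap (hk : ∀ i, (B i).card = k) (hint : ∀ i j, i ≠ j → (B i ∩ B j).card ≤ lam)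
    (hf : SumDetected k B f) {i : ι} {A C : Finset (Fin v)} (hA : A ⊆ B i)
    (hC : Disjoint C (B i)) (hcard : A.card = C.card) (hpos : 1 ≤ A.card)
    (hne : A.card + lam < k) : ∑ x ∈ A, f x ≠ ∑ x ∈ C, f x := by
  classical
  intro hsum
  have hdisj : Disjoint (B i \ A) C := (hC.mono_right (sdiff_subset (t := A))).symm
  have hYc : ((B i \ A) ∪ C).card = k := by
    rw [card_union_of_disjoint hdisj, card_sdiff_of_subset hA, ← hcard, hk i]
    have := card_le_card hA
    rw [hk i] at this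
    omega
  have hYs : ∑ x ∈ B i, f x = ∑ x ∈ (B i \ A) ∪ C, f x := by
    rw [sum_union hdisj, ← hsum, sum_sdiff hA]
  obtain ⟨j, hj⟩ := hf (B i) _ (hk i) hYc hYs ⟨i, rfl⟩
  have hCne : C.Nonempty := card_pos.1 (by omega)
  obtain ⟨c, hc⟩ := hCne
  have hij : i ≠ j := by
    rintro rfl
    have h1 : c ∈ B i := by rw [hj]; exact mem_union_right _ hc
    exact disjoint_left.1 hC hc h1
  have h1 := hint i j hij
  have h2 : B i ∩ B j = B i \ A := by
    rw [hj]
    ext x
    simp only [mem_inter, mem_union, mem_sdiff]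
    constructor
    · rintro ⟨hx, h | h⟩
      · exact h
      · exact absurd hx (disjoint_left.1 hC h)
    · intro h
      exact ⟨h.1, Or.inl h⟩
  rw [h2, card_sdiff_of_subset hA, hk i] at h1
  have := card_le_card hA
  rw [hk i] at this
  omega

/-- every point is on more than `lam` blocks -/
lemma lam_lt_repl [Fintype ι] [DecidableEq ι] (hD : IsMeetDesign v k lam B) (x : Fin v) :
    lam < (Finset.univ.filter (fun i => x ∈ B i)).card ∨ lam = 0 := by
  classical
  rcases Nat.eq_zero_or_pos lam with h0 | h0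
  · exact Or.inr h0
  left
  have hkv := hD.lt
  have hk2 := hD.two_le
  have e1 : ∑ y : Fin v, (Finset.univ.filter (fun i => x ∈ B i ∧ y ∈ B i)).card
      = (Finset.univ.filter (fun i => x ∈ B i)).card * k := by
    simp_rw [Finset.card_filter]
    rw [Finset.sum_comm, Finset.sum_mul]
    refine Finset.sum_congr rfl fun i _ => ?_
    by_cases hx : x ∈ B i
    · simp [hx, hD.size i]
    · simp [hx]
  have e2 : ∑ y : Fin v, (Finset.univ.filter (fun i => x ∈ B i ∧ y ∈ B i)).card
      = (Finset.univ.filter (fun i => x ∈ B i)).card + lam * (v - 1) := by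
    rw [← Finset.add_sum_erase _ _ (Finset.mem_univ x)]
    congr 1
    · simp
    · rw [Finset.sum_congr rfl (g := fun _ => lam)]
      · simp [Finset.card_erase_of_mem, mul_comm]
      · intro y hy
        exact hD.pair x y (Finset.ne_of_mem_erase hy).symm
  rw [e1] at e2
  set r := (Finset.univ.filter (fun i => x ∈ B i)).card
  by_contra hcon
  push Not at hcon
  obtain ⟨k', rfl⟩ : ∃ k', k = k' + 1 := ⟨k - 1, by omega⟩
  have h1 : r * k' = lam * (v - 1) := by
    rw [mul_add, mul_one] at e2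
    omega
  have h2 : r * k' ≤ lam * k' := Nat.mul_le_mul_right _ hcon
  have h3 : lam * k' < lam * (v - 1) := Nat.mul_lt_mul_of_pos_left (by omega) h0
  omega

lemma inj [Fintype ι] (hD : IsMeetDesign v k lam B) (hlam : 1 ≤ lam) (h2 : lam + 2 ≤ k)
    (hf : SumDetected k B f) : Function.Injective f := by
  classical
  intro x y hxy
  by_contra hne
  have hr := lam_lt_repl hD x
  have h3 : ∃ i, x ∈ B i ∧ y ∉ B i := by
    by_contra hcon
    push Not at hcon
    have h4 : (Finset.univ.filter (fun i => x ∈ B i)) ⊆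
        (Finset.univ.filter (fun i => x ∈ B i ∧ y ∈ B i)) := by
      intro i hi
      simp only [mem_filter, mem_univ, true_and] at hi ⊢
      exact ⟨hi, hcon i hi⟩
    have h5 := card_le_card h4
    rw [hD.pair x y hne] at h5
    omega
  obtain ⟨i, hxi, hyi⟩ := h3
  refine swap hD.size hD.meet hf (i := i) (A := {x}) (C := {y}) (by simpa using hxi)
    (by simpa using hyi) (by simp) (by simp) ?_ (by simpa using hxy)
  simp only [card_singleton]
  omega

end

/-! ### Pairs with the same sum -/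

lemma two_choose (n : ℕ) : 2 * n.choose 2 = n * (n - 1) := by
  rw [Nat.choose_two_right, Nat.mul_div_cancel' (Nat.even_mul_pred_self n).two_dvd]

section
variable {v k lam : ℕ} {ι : Type} [Fintype ι] {B : ι → Finset (Fin v)}

lemma pair_count
    (hp : ∀ x y : Fin v, x ≠ y →
      (Finset.univ.filter (fun i => x ∈ B i ∧ y ∈ B i)).card = lam)
    (A : Finset (Fin v)) (hA : A.card = 2) :
    (Finset.univ.filter (fun i => A ⊆ B i)).card = lam := by
  classical
  obtain ⟨a, b, hab, rfl⟩ := card_eq_two.1 hA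
  rw [← hp a b hab]
  congr 1
  ext i
  simp [insert_subset_iff]

/-- pairwise disjoint pairs such that each block which contains one of them meets all of them -/
lemma few_pairs
    (hp : ∀ x y : Fin v, x ≠ y →
      (Finset.univ.filter (fun i => x ∈ B i ∧ y ∈ B i)).card = lam)
    (hint : ∀ i j, i ≠ j → (B i ∩ B j).card ≤ lam) (hlam : 2 ≤ lam)
    (P : Finset (Finset (Fin v))) (h2 : ∀ A ∈ P, A.card = 2)
    (hd : ∀ A ∈ P, ∀ C ∈ P, A ≠ C → Disjoint A C)
    (hm : ∀ A ∈ P, ∀ C ∈ P, ∀ i, A ⊆ B i → ¬ Disjoint C (B i)) :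
    2 * P.card ≤ lam + 2 := by
  classical
  rcases Nat.lt_or_ge P.card 2 with hr | hr
  · omega
  set r := P.card with hrdef
  set U := P.biUnion (fun A => A) with hUdef
  have hU : U.card = 2 * r := by
    rw [hUdef, card_biUnion (fun A hA C hC hAC => hd A hA C hC hAC)]
    rw [sum_congr rfl (g := fun _ => 2) (fun A hA => h2 A hA)]
    simp [hrdef, mul_comm]
  set x : ι → ℕ := fun i => (P.filter (fun A => A ⊆ B i)).card with hx
  set c : ι → ℕ := fun i => (U ∩ B i).card with hc
  have hxsum : ∑ i, x i = r * lam := by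
    simp only [hx, card_filter]
    rw [sum_comm, sum_congr rfl (g := fun _ => lam)]
    · simp [hrdef]
    · intro A hA
      rw [← card_filter]
      exact pair_count hp A (h2 A hA)
  have hcsum : ∑ i, (c i).choose 2 = (2 * r).choose 2 * lam := by
    have e1 : ∀ i, (c i).choose 2 = ((U.powersetCard 2).filter (fun T => T ⊆ B i)).card := by
      intro i
      rw [hc, ← card_powersetCard]
      congr 1
      ext T
      simp only [mem_powersetCard, mem_filter, subset_inter_iff]
      tauto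
    simp only [e1, card_filter]
    rw [sum_comm, sum_congr rfl (g := fun _ => lam)]
    · simp [card_powersetCard, hU]
    · intro T hT
      rw [← card_filter]
      exact pair_count hp T (mem_powersetCard.1 hT).2
  have hcx : ∀ i, 1 ≤ x i → c i = r + x i := by
    intro i hi
    obtain ⟨A0, hA0⟩ := card_pos.1 hi
    rw [mem_filter] at hA0
    have e1 : U ∩ B i = P.biUnion (fun A => A ∩ B i) := by
      rw [hUdef, biUnion_inter]
    have e2 : c i = ∑ A ∈ P, (A ∩ B i).card := by
      simp only [hc]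
      rw [e1, card_biUnion]
      intro A hA C hC hAC
      exact (hd A hA C hC hAC).mono inter_subset_left inter_subset_left
    have e3 : ∀ A ∈ P, (A ∩ B i).card = 1 + if A ⊆ B i then 1 else 0 := by
      intro A hA
      by_cases hAB : A ⊆ B i
      · rw [if_pos hAB, inter_eq_left.2 hAB, h2 A hA]
      · rw [if_neg hAB]
        have h4 : (A ∩ B i).card ≠ 0 := by
          intro h5
          exact hm A0 hA0.1 A hA i hA0.2 (disjoint_iff_inter_eq_empty.2 (card_eq_zero.1 h5))
        have h5 : (A ∩ B i).card < A.card := by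
          refine card_lt_card ?_
          rw [Finset.ssubset_iff_subset_ne]
          refine ⟨inter_subset_left, fun h => hAB (inter_eq_left.1 h)⟩
        rw [h2 A hA] at h5
        omega
    rw [e2, sum_congr rfl e3, sum_add_distrib, ← card_filter, sum_const, smul_eq_mul, mul_one]
  have hxr : ∀ i, x i ≤ r := fun i => card_filter_le _ _
  have hid : ∀ X t : ℕ, 2 ≤ X + t →
      (4 * (X + t) - 2) * X + t * (t - 1) = (X + t + X) * (X + t + X - 1) := by
    intro X t h
    rcases t with _ | t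
    · simp only [add_zero, zero_mul]
      obtain ⟨Y, rfl⟩ : ∃ Y, X = Y + 1 := ⟨X - 1, by omega⟩
      have h1 : 4 * (Y + 1) - 2 = 4 * Y + 2 := by omega
      have h2 : Y + 1 + (Y + 1) - 1 = 2 * Y + 1 := by omega
      rw [h1, h2]
      ring
    · have h1 : 4 * (X + (t + 1)) - 2 = 4 * X + 4 * t + 2 := by omega
      have h2 : X + (t + 1) + X - 1 = 2 * X + t := by omega
      rw [h1, h2, Nat.add_sub_cancel]
      ring
  have hterm : ∀ i ∈ (univ : Finset ι), (4 * r - 2) * x i ≤ c i * (c i - 1) := by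
    intro i _
    rcases Nat.eq_zero_or_pos (x i) with h | h
    · rw [h]; simp
    · obtain ⟨t, ht⟩ : ∃ t, r = x i + t := ⟨r - x i, by have := hxr i; omega⟩
      have h3 := hid (x i) t (by omega)
      rw [hcx i h, ht, ← h3]
      exact Nat.le_add_right _ _
  have hsumeq : ∑ i, (4 * r - 2) * x i = ∑ i, c i * (c i - 1) := by
    rw [← mul_sum, hxsum]
    have e1 : ∑ i, c i * (c i - 1) = 2 * ∑ i, (c i).choose 2 := by
      rw [mul_sum]
      exact sum_congr rfl (fun i _ => (two_choose _).symm)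
    have h1 : 4 * r - 2 = 2 * (2 * r - 1) := by omega
    rw [e1, hcsum, ← mul_assoc 2 _ lam, two_choose, h1]
    ring
  have heq := (sum_eq_sum_iff_of_le hterm).1 hsumeq
  have hbig : ∀ i, 2 ≤ c i → 2 * r - 1 ≤ c i := by
    intro i hci
    have h1 := heq i (mem_univ i)
    rcases Nat.eq_zero_or_pos (x i) with h | h
    · rw [h, mul_zero] at h1
      rcases Nat.mul_eq_zero.1 h1.symm with h2 | h2 <;> omega
    · obtain ⟨t, ht⟩ : ∃ t, r = x i + t := ⟨r - x i, by have := hxr i; omega⟩
      have h3 := hid (x i) t (by omega)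
      have h4 := hcx i h
      rw [h4, ht, ← h3] at h1
      have h5 : t * (t - 1) = 0 := by omega
      rcases Nat.mul_eq_zero.1 h5 with h6 | h6 <;> omega
  obtain ⟨u, hu, u', hu', huu⟩ := one_lt_card.1 (by omega : 1 < U.card)
  have hF := hp u u' huu
  obtain ⟨i, hi, j, hj, hij⟩ := one_lt_card.1 (by omega :
    1 < (Finset.univ.filter (fun i => u ∈ B i ∧ u' ∈ B i)).card)
  rw [mem_filter] at hi hj
  have hc2 : ∀ l, u ∈ B l → u' ∈ B l → 2 ≤ c l := by
    intro l h1 h2
    have h3 : ({u, u'} : Finset (Fin v)) ⊆ U ∩ B l := by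
      intro y hy
      simp only [mem_insert, mem_singleton] at hy
      rcases hy with rfl | rfl
      · exact mem_inter.2 ⟨hu, h1⟩
      · exact mem_inter.2 ⟨hu', h2⟩
    have h4 := card_le_card h3
    rwa [card_pair huu] at h4
  have h1 := hbig i (hc2 i hi.2.1 hi.2.2)
  have h2 := hbig j (hc2 j hj.2.1 hj.2.2)
  have h3 := card_union_add_card_inter (U ∩ B i) (U ∩ B j)
  have h4 : ((U ∩ B i) ∪ (U ∩ B j)).card ≤ U.card :=
    card_le_card (union_subset inter_subset_left inter_subset_left)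
  have h5 : ((U ∩ B i) ∩ (U ∩ B j)).card ≤ (B i ∩ B j).card :=
    card_le_card (inter_subset_inter inter_subset_right inter_subset_right)
  have h6 := hint i j hij
  simp only [hc] at h1 h2
  omega

end

section
variable {v k lam : ℕ} {ι : Type} [Fintype ι] {B : ι → Finset (Fin v)} {G : Type}
  [AddCommGroup G] {f : Fin v → G}

/-- an element of `G` is the sum of few pairs -/
lemma few_ordered [DecidableEq G] (hk : ∀ i, (B i).card = k)
    (hp : ∀ x y : Fin v, x ≠ y →
      (Finset.univ.filter (fun i => x ∈ B i ∧ y ∈ B i)).card = lam)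
    (hint : ∀ i j, i ≠ j → (B i ∩ B j).card ≤ lam) (hlam : 2 ≤ lam) (h3 : lam + 3 ≤ k)
    (hf : SumDetected k B f) (hinj : Function.Injective f) (g : G) :
    ((univ : Finset (Fin v)).offDiag.filter (fun q => f q.1 + f q.2 = g)).card ≤ lam + 2 := by
  classical
  set P := ((univ : Finset (Fin v)).powersetCard 2).filter (fun A => ∑ x ∈ A, f x = g) with hP
  have hPc : ∀ A ∈ P, A.card = 2 := fun A hA => (mem_powersetCard.1 (mem_filter.1 hA).1).2
  have hPs : ∀ A ∈ P, ∑ x ∈ A, f x = g := fun A hA => (mem_filter.1 hA).2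
  have hfew : 2 * P.card ≤ lam + 2 := by
    refine few_pairs hp hint hlam P hPc ?_ ?_
    · intro A hA C hC hAC
      rw [disjoint_left]
      intro x hxA hxC
      apply hAC
      obtain ⟨a, ha⟩ := card_eq_one.1 (by rw [card_erase_of_mem hxA, hPc A hA] :
        (A.erase x).card = 1)
      obtain ⟨c, hc⟩ := card_eq_one.1 (by rw [card_erase_of_mem hxC, hPc C hC] :
        (C.erase x).card = 1)
      have h1 := add_sum_erase A f hxA
      have h2 := add_sum_erase C f hxC
      rw [ha, sum_singleton, hPs A hA] at h1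
      rw [hc, sum_singleton, hPs C hC] at h2
      have h4 : f a = f c := add_left_cancel (h1.trans h2.symm)
      have h5 : a = c := hinj h4
      rw [← insert_erase hxA, ← insert_erase hxC, ha, hc, h5]
    · intro A hA C hC i hAi hCi
      exact swap hk hint hf hAi hCi ((hPc A hA).trans (hPc C hC).symm)
        (by rw [hPc A hA]; omega) (by rw [hPc A hA]; omega) ((hPs A hA).trans (hPs C hC).symm)
  set F := (univ : Finset (Fin v)).offDiag.filter (fun q => f q.1 + f q.2 = g) with hF
  have himg : F.image (fun q => ({q.1, q.2} : Finset (Fin v))) ⊆ P := by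
    intro A hA
    obtain ⟨q, hq, rfl⟩ := mem_image.1 hA
    rw [hF, mem_filter, mem_offDiag] at hq
    rw [hP, mem_filter, mem_powersetCard]
    exact ⟨⟨subset_univ _, card_pair hq.1.2.2⟩, by rw [sum_pair hq.1.2.2]; exact hq.2⟩
  have h2 : F.card ≤ 2 * (F.image (fun q => ({q.1, q.2} : Finset (Fin v)))).card := by
    refine card_le_mul_card_image F 2 ?_
    intro A hA
    obtain ⟨q0, hq0, rfl⟩ := mem_image.1 hA
    have h4 : (F.filter (fun q => ({q.1, q.2} : Finset (Fin v)) = {q0.1, q0.2})) ⊆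
        {(q0.1, q0.2), (q0.2, q0.1)} := by
      intro q hq
      rw [mem_filter, hF, mem_filter, mem_offDiag] at hq
      have h5 : q.1 ∈ ({q0.1, q0.2} : Finset (Fin v)) := by rw [← hq.2]; simp
      have h6 : q.2 ∈ ({q0.1, q0.2} : Finset (Fin v)) := by rw [← hq.2]; simp
      have h7 := hq.1.1.2.2
      simp only [mem_insert, mem_singleton] at h5 h6 ⊢
      obtain ⟨a, b⟩ := q
      simp only [Prod.mk.injEq] at *
      rcases h5 with h5 | h5 <;> rcases h6 with h6 | h6 <;> simp_all
    exact (card_le_card h4).trans card_le_two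
  have h4 := card_le_card himg
  omega

lemma card_sums [DecidableEq G] (n : ℕ)
    (h : ∀ g : G, ((univ : Finset (Fin v)).offDiag.filter (fun q => f q.1 + f q.2 = g)).card ≤ n) :
    v * (v - 1) ≤ n * ((univ : Finset (Fin v)).offDiag.image (fun q => f q.1 + f q.2)).card := by
  have h1 := card_le_mul_card_image (f := fun q : Fin v × Fin v => f q.1 + f q.2)
    (univ : Finset (Fin v)).offDiag n (fun g _ => h g)
  rw [offDiag_card] at h1
  simp only [card_univ, Fintype.card_fin] at h1
  rwa [Nat.mul_sub_one]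

/-- differences between points of a block and points outside are free of zero sums -/
lemma zero_sum_free (hD : IsMeetDesign v k lam B) (hlam : 1 ≤ lam)
    (hf : SumDetected k B f) (m : ℕ)
    (hm : ∀ e : Fin m → G, ∃ I : Finset (Fin m), I.Nonempty ∧ ∑ t ∈ I, e t = 0) :
    k ≤ lam + m := by
  classical
  by_contra hcon
  push Not at hcon
  have hkv := hD.lt
  have hk2 := hD.two_le
  have hk := hD.size
  have hex : ∀ x y : Fin v, x ≠ y → ∃ i, x ∈ B i ∧ y ∈ B i := by
    intro x y hxy
    obtain ⟨i, hi⟩ := card_pos.1 (by rw [hD.pair x y hxy]; omega :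
      0 < (Finset.univ.filter (fun i => x ∈ B i ∧ y ∈ B i)).card)
    exact ⟨i, by simpa using hi⟩
  obtain ⟨i, -, -⟩ := hex ⟨0, by omega⟩ ⟨1, by omega⟩ (by simp)
  have hout : ∃ y, y ∉ B i := by
    by_contra hall
    push Not at hall
    have h1 : B i = univ := eq_univ_iff_forall.2 hall
    have h2 := hk i
    rw [h1, card_univ, Fintype.card_fin] at h2
    omega
  obtain ⟨y, hy⟩ := hout
  obtain ⟨x, hx⟩ := card_pos.1 (by rw [hk i]; omega : 0 < (B i).card)
  obtain ⟨j, hxj, hyj⟩ := hex x y (by rintro rfl; exact hy hx)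
  have hij : i ≠ j := by rintro rfl; exact hy hyj
  have h1 := card_union_add_card_inter (B i) (B j)
  have h2 : (B i ∪ B j).card ≤ v := by
    simpa using card_le_univ (B i ∪ B j)
  have h3 := hD.meet i j hij
  rw [hk i, hk j] at h1
  obtain ⟨S, hS, hSc⟩ := exists_subset_card_eq (s := B i) (n := m) (by rw [hk i]; omega)
  obtain ⟨T, hT, hTc⟩ := exists_subset_card_eq (s := (B i)ᶜ) (n := m)
    (by rw [card_compl, hk i, Fintype.card_fin]; omega)
  set b : Fin m ↪ Fin v := (S.orderEmbOfFin hSc).toEmbedding with hb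
  set w : Fin m ↪ Fin v := (T.orderEmbOfFin hTc).toEmbedding with hw
  obtain ⟨I, hI, hIs⟩ := hm (fun t => f (b t) - f (w t))
  have hA : I.map b ⊆ B i := by
    intro y hy
    obtain ⟨t, -, rfl⟩ := mem_map.1 hy
    exact hS (S.orderEmbOfFin_mem hSc t)
  have hC : Disjoint (I.map w) (B i) := by
    rw [disjoint_left]
    intro y hy hyB
    obtain ⟨t, -, rfl⟩ := mem_map.1 hy
    exact (mem_compl.1 (hT (T.orderEmbOfFin_mem hTc t))) hyB
  have hIm : I.card ≤ m := by simpa using card_le_univ I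
  refine swap hk hD.meet hf hA hC (by simp) (by rw [card_map]; exact card_pos.2 hI)
    (by rw [card_map]; omega) ?_
  rw [sum_map, sum_map]
  rw [sum_sub_distrib] at hIs
  exact sub_eq_zero.1 hIs

end

/-- the Davenport constant of an elementary abelian group is at most `d (p - 1) + 1` -/
lemma davenport (p d : ℕ) (hp : p.Prime) (e : Fin (d * (p - 1) + 1) → (Fin d → ZMod p)) :
    ∃ I : Finset (Fin (d * (p - 1) + 1)), I.Nonempty ∧ ∑ t ∈ I, e t = 0 := by
  classical
  have : Fact p.Prime := ⟨hp⟩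
  set F : Fin d → MvPolynomial (Fin (d * (p - 1) + 1)) (ZMod p) :=
    fun l => ∑ t, MvPolynomial.C (e t l) * MvPolynomial.X t ^ (p - 1) with hF
  have hdeg : ∀ l, (F l).totalDegree ≤ p - 1 := by
    intro l
    refine (MvPolynomial.totalDegree_finsetSum _ _).trans (Finset.sup_le fun t _ => ?_)
    refine (MvPolynomial.totalDegree_mul _ _).trans ?_
    rw [MvPolynomial.totalDegree_C, zero_add]
    refine (MvPolynomial.totalDegree_pow _ _).trans ?_
    rw [MvPolynomial.totalDegree_X, mul_one]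
  have hsum : (∑ l ∈ (univ : Finset (Fin d)), (F l).totalDegree) <
      Fintype.card (Fin (d * (p - 1) + 1)) := by
    rw [Fintype.card_fin]
    have h1 : (∑ l ∈ (univ : Finset (Fin d)), (F l).totalDegree) ≤ ∑ _l : Fin d, (p - 1) :=
      sum_le_sum fun l _ => hdeg l
    simp only [sum_const, card_univ, Fintype.card_fin, smul_eq_mul] at h1
    omega
  set Sol := {x : Fin (d * (p - 1) + 1) → ZMod p //
    ∀ l ∈ (univ : Finset (Fin d)), MvPolynomial.eval x (F l) = 0} with hSol
  have hdvd : p ∣ Nat.card Sol := by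
    have h := char_dvd_card_solutions_of_sum_lt p hsum
    rw [Nat.card_eq_fintype_card]
    convert h
  have h0 : ∀ l ∈ (univ : Finset (Fin d)),
      MvPolynomial.eval (0 : Fin (d * (p - 1) + 1) → ZMod p) (F l) = 0 := by
    intro l _
    rw [hF, map_sum]
    refine sum_eq_zero fun t _ => ?_
    have : p - 1 ≠ 0 := by have := hp.two_le; omega
    simp [this]
  have hne : Nonempty Sol := ⟨⟨0, h0⟩⟩
  have hge : 1 < Nat.card Sol :=
    lt_of_lt_of_le hp.one_lt (Nat.le_of_dvd Nat.card_pos hdvd)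
  have hnt : Nontrivial Sol := Finite.one_lt_card_iff_nontrivial.1 hge
  obtain ⟨x, hx⟩ := exists_ne (⟨0, h0⟩ : Sol)
  have hx0 : x.1 ≠ 0 := fun h => hx (Subtype.ext h)
  refine ⟨univ.filter (fun t => x.1 t ≠ 0), ?_, ?_⟩
  · obtain ⟨t, ht⟩ := Function.ne_iff.1 hx0
    exact ⟨t, by simpa using ht⟩
  · ext l
    have h1 : MvPolynomial.eval x.1
        (∑ t, MvPolynomial.C (e t l) * MvPolynomial.X t ^ (p - 1)) = 0 := x.2 l (mem_univ l)
    rw [map_sum] at h1
    rw [Finset.sum_apply, sum_filter, Pi.zero_apply]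
    refine Eq.trans (sum_congr rfl fun t _ => ?_) h1
    simp only [map_mul, map_pow, MvPolynomial.eval_C, MvPolynomial.eval_X]
    by_cases ht : x.1 t = 0
    · have : p - 1 ≠ 0 := by have := hp.two_le; omega
      simp [ht, this]
    · rw [if_pos ht, ZMod.pow_card_sub_one_eq_one ht, mul_one]


/-! ### Zero sums in groups of given exponent -/

section
variable {G : Type} [AddCommGroup G] {ι : Type}

lemma char_sum (χ : AddChar G ℂ) (t : Finset ι) (x : ι → G) :
    χ (∑ i ∈ t, x i) = ∏ i ∈ t, χ (x i) := by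
  classical
  induction t using Finset.induction_on with
  | empty => simp
  | insert a s ha ih => rw [sum_insert ha, prod_insert ha, AddChar.map_add_eq_mul, ih]

lemma popular (e : ℕ) (he : 1 ≤ e) (hexp : ∀ g : G, e • g = 0)
    (R : Finset (AddChar G ℂ)) (g : G) :
    ∃ z : ℂ, z ≠ 0 ∧ (R.card : ℝ) / e ≤ ((R.filter (fun χ => χ g = z)).card : ℝ) := by
  classical
  rcases R.eq_empty_or_nonempty with rfl | hR
  · exact ⟨1, one_ne_zero, by simp⟩
  have hroot : ∀ χ : AddChar G ℂ, (χ g) ^ e = 1 := by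
    intro χ
    rw [← AddChar.map_nsmul_eq_pow, hexp, AddChar.map_zero_eq_one]
  have hmaps : ∀ χ ∈ R, χ g ∈ R.image (fun χ => χ g) := fun χ hχ => mem_image_of_mem _ hχ
  have hcard : (R.image (fun χ : AddChar G ℂ => χ g)).card ≤ e := by
    have h1 : R.image (fun χ : AddChar G ℂ => χ g) ⊆ (Polynomial.nthRoots e (1 : ℂ)).toFinset := by
      intro z hz
      obtain ⟨χ, -, rfl⟩ := mem_image.1 hz
      rw [Multiset.mem_toFinset, Polynomial.mem_nthRoots (by omega)]
      exact hroot χ
    exact (card_le_card h1).trans ((Multiset.toFinset_card_le _).trans (Polynomial.card_nthRoots _ _))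
  have he0 : (0 : ℝ) < e := by exact_mod_cast he
  obtain ⟨z, hz, hz2⟩ := exists_le_card_fiber_of_nsmul_le_card_of_maps_to hmaps (hR.image _)
    (b := (R.card : ℝ) / e) (by
      rw [nsmul_eq_mul, mul_div_assoc', div_le_iff₀ he0, mul_comm (R.card : ℝ)]
      exact mul_le_mul_of_nonneg_right (by exact_mod_cast hcard) (by positivity))
  refine ⟨z, ?_, hz2⟩
  rintro rfl
  obtain ⟨χ, -, hχ⟩ := mem_image.1 hz
  have h1 := hroot χ
  rw [hχ, zero_pow (by omega)] at h1
  exact zero_ne_one h1

lemma killing [Fintype G] (e : ℕ) (he : 1 ≤ e) (hexp : ∀ g : G, e • g = 0) (x : ι → G) (S : Finset ι) :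
    ∃ α : ι → ℂ, (∀ i, α i ≠ 0) ∧
      (Set.ncard {χ : AddChar G ℂ | ∀ i ∈ S, χ (x i) ≠ α i} : ℝ) ≤
        (Fintype.card G : ℝ) * (1 - 1 / e) ^ S.card := by
  classical
  have he0 : (0 : ℝ) < e := by exact_mod_cast he
  have he1 : (1 : ℝ) ≤ e := by exact_mod_cast he
  induction S using Finset.induction_on with
  | empty =>
    refine ⟨fun _ => 1, fun _ => one_ne_zero, ?_⟩
    simp [Set.ncard_univ]
  | insert a S ha ih =>
    obtain ⟨α, hα, hc⟩ := ih
    set R := (univ : Finset (AddChar G ℂ)).filter (fun χ => ∀ i ∈ S, χ (x i) ≠ α i) with hR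
    have hR2 : {χ : AddChar G ℂ | ∀ i ∈ S, χ (x i) ≠ α i} = (R : Set (AddChar G ℂ)) := by
      ext χ; simp [hR]
    rw [hR2, Set.ncard_coe_finset] at hc
    obtain ⟨z, hz, hz2⟩ := popular e he hexp R (x a)
    refine ⟨Function.update α a z, ?_, ?_⟩
    · intro i
      by_cases h : i = a
      · subst h; simpa using hz
      · rw [Function.update_of_ne h]; exact hα i
    · have h1 : {χ : AddChar G ℂ | ∀ i ∈ insert a S, χ (x i) ≠ Function.update α a z i} =
          (R.filter (fun χ => ¬ χ (x a) = z) : Set (AddChar G ℂ)) := by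
        ext χ
        simp only [coe_filter, Set.mem_ofPred_eq, mem_filter, mem_univ, true_and, mem_insert,
          forall_eq_or_imp, hR, Function.update_self]
        constructor
        · rintro ⟨h1, h2⟩
          refine ⟨fun i hi => ?_, h1⟩
          have h3 := h2 i hi
          rwa [Function.update_of_ne (by rintro rfl; exact ha hi)] at h3
        · rintro ⟨h1, h2⟩
          refine ⟨h2, fun i hi => ?_⟩
          rw [Function.update_of_ne (by rintro rfl; exact ha hi)]
          exact h1 i hi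
      have h2 := card_filter_add_card_filter_not (s := R) (fun χ : AddChar G ℂ => χ (x a) = z)
      have h3 : ((R.filter (fun χ => ¬ χ (x a) = z)).card : ℝ) =
          R.card - (R.filter (fun χ => χ (x a) = z)).card := by
        rw [← h2]; push_cast; ring
      rw [h1, Set.ncard_coe_finset, h3, card_insert_of_notMem ha, pow_succ, ← mul_assoc]
      have h4 : (R.card : ℝ) - (R.filter (fun χ => χ (x a) = z)).card ≤
          R.card * (1 - 1 / e) := by
        have h5 : (R.card : ℝ) * (1 - 1 / e) = R.card - R.card / e := by ring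
        rw [h5]
        linarith
      refine h4.trans (mul_le_mul_of_nonneg_right hc ?_)
      rw [sub_nonneg, div_le_one he0]
      exact he1

/-- sequences longer than `e log |G|` have a nonempty subsequence with sum zero
(van Emde Boas and Kruyswijk, Meshulam, Alford, Granville and Pomerance) -/
lemma zero_sum_exp [Fintype G] [Fintype ι] (e : ℕ) (he : 1 ≤ e) (hexp : ∀ g : G, e • g = 0) (x : ι → G)
    (hs : (Fintype.card G : ℝ) * (1 - 1 / e) ^ (Fintype.card ι) < 1) :
    ∃ I : Finset ι, I.Nonempty ∧ ∑ t ∈ I, x t = 0 := by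
  classical
  by_contra hcon
  push Not at hcon
  obtain ⟨α, hα, hc⟩ := killing e he hexp x univ
  rw [card_univ] at hc
  have h0 : Set.ncard {χ : AddChar G ℂ | ∀ i ∈ univ, χ (x i) ≠ α i} = 0 := by
    have h1 := hc.trans_lt hs
    have h2 : Set.ncard {χ : AddChar G ℂ | ∀ i ∈ univ, χ (x i) ≠ α i} < 1 := by
      exact_mod_cast h1
    omega
  have hprod : ∀ χ : AddChar G ℂ, ∏ i, (-χ (x i) + α i) = 0 := by
    intro χ
    rw [Set.ncard_eq_zero] at h0
    have h1 : χ ∉ {χ : AddChar G ℂ | ∀ i ∈ univ, χ (x i) ≠ α i} := by rw [h0]; simp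
    rw [Set.mem_ofPred_eq] at h1
    push Not at h1
    obtain ⟨i, -, hi⟩ := h1
    refine prod_eq_zero (mem_univ i) ?_
    rw [hi]; ring
  have hexpand : ∀ χ : AddChar G ℂ, ∏ i, (-χ (x i) + α i) =
      ∑ t ∈ (univ : Finset ι).powerset, ((-1) ^ t.card * ∏ i ∈ univ \ t, α i) *
        χ (∑ i ∈ t, x i) := by
    intro χ
    rw [prod_add]
    refine sum_congr rfl fun t _ => ?_
    rw [char_sum, prod_neg]
    ring
  have hsum : ∑ χ : AddChar G ℂ, ∏ i, (-χ (x i) + α i) = (Fintype.card G : ℂ) * ∏ i, α i := by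
    simp_rw [hexpand]
    rw [sum_comm]
    simp_rw [← mul_sum, AddChar.sum_apply_eq_ite]
    rw [sum_eq_single ∅]
    · simp; ring
    · intro t _ ht
      rw [if_neg (hcon t (nonempty_iff_ne_empty.2 ht)), mul_zero]
    · intro h
      exact absurd (mem_powerset.2 (empty_subset _)) h
  simp_rw [hprod] at hsum
  rw [sum_const_zero] at hsum
  have h1 : (Fintype.card G : ℂ) * ∏ i, α i ≠ 0 := by
    refine mul_ne_zero ?_ (prod_ne_zero_iff.2 fun i _ => hα i)
    exact_mod_cast Fintype.card_ne_zero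
  exact h1 hsum.symm

lemma log_bound (N e m : ℕ) (hN : 1 ≤ N) (he : 1 ≤ e) (hm : (e : ℝ) * Real.log N < m) :
    (N : ℝ) * (1 - 1 / e) ^ m < 1 := by
  have he0 : (0 : ℝ) < e := by exact_mod_cast he
  have he1 : (1 : ℝ) ≤ e := by exact_mod_cast he
  have hN0 : (0 : ℝ) < N := by exact_mod_cast hN
  have h0 : (0 : ℝ) ≤ 1 - 1 / e := by
    rw [sub_nonneg, div_le_one he0]; exact he1
  have h1 : (1 - 1 / (e : ℝ)) ^ m ≤ Real.exp (-(1 / (e : ℝ))) ^ m :=
    pow_le_pow_left₀ h0 (Real.one_sub_le_exp_neg _) m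
  rw [← Real.exp_nat_mul] at h1
  have h2 : (m : ℝ) * -(1 / (e : ℝ)) < -Real.log N := by
    have h3 : Real.log N < m / e := by
      rw [lt_div_iff₀ he0]; linarith
    have h4 : (m : ℝ) * -(1 / (e : ℝ)) = -(m / e) := by ring
    rw [h4]
    linarith
  have h5 := Real.exp_lt_exp.2 h2
  have h6 : (N : ℝ) * Real.exp (-Real.log N) = 1 := by
    rw [Real.exp_neg, Real.exp_log hN0, mul_inv_cancel₀ hN0.ne']
  calc (N : ℝ) * (1 - 1 / e) ^ m ≤ N * Real.exp ((m : ℝ) * -(1 / (e : ℝ))) :=
        mul_le_mul_of_nonneg_left h1 hN0.le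
    _ < N * Real.exp (-Real.log N) := mul_lt_mul_of_pos_left h5 hN0
    _ = 1 := h6

end

/-- the designs with `k ≤ lam + 2` -/
lemma small_cases {v k lam : ℕ} {B : Fin v → Finset (Fin v)} (hD : IsSymmetricDesign v k lam B)
    (hlam : 2 ≤ lam) : lam + 3 ≤ k ∨ (v = lam + 2 ∧ k = lam + 1) ∨ (v = 7 ∧ k = 4 ∧ lam = 2) := by
  have hkv := hD.lt
  have hk2 := hD.two_le
  obtain ⟨-, h1⟩ := repl v k lam (by omega) (by omega) B hD.size hD.pair
  have h2 := (design_facts (by omega) (by omega) hkv hD.size hD.pair).1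
  rcases Nat.lt_or_ge k (lam + 3) with h3 | h3
  · right
    obtain ⟨u, rfl⟩ : ∃ u, v = u + 1 := ⟨v - 1, by omega⟩
    rw [Nat.add_sub_cancel] at h1
    rcases (by omega : k = lam + 1 ∨ k = lam + 2) with h4 | h4
    · left
      subst h4
      have h5 : lam * (lam + 1) = lam * u := by nlinarith
      have h6 := Nat.eq_of_mul_eq_mul_left (by omega) h5
      omega
    · right
      subst h4
      have h5 : lam * u = lam * (lam + 3) + 2 := by nlinarith
      have h6 : lam ∣ 2 := by
        have h7 : lam ∣ lam * (lam + 3) + 2 := h5 ▸ dvd_mul_right _ _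
        exact (Nat.dvd_add_right (dvd_mul_right _ _)).1 h7
      have h7 := Nat.le_of_dvd (by norm_num) h6
      have h8 : lam = 2 := by omega
      subst h8
      omega
  · exact Or.inl h3

theorem pairs_theorem {v k lam : ℕ} {ι : Type} [Fintype ι] {B : ι → Finset (Fin v)} {G : Type}
    [AddCommGroup G] {f : Fin v → G} (hD : IsMeetDesign v k lam B) (hlam : 2 ≤ lam)
    (h3 : lam + 3 ≤ k) (hf : SumDetected k B f) :
    Function.Injective f ∧
      (∀ g : G, Set.ncard {q : Fin v × Fin v | q.1 ≠ q.2 ∧ f q.1 + f q.2 = g} ≤ lam + 2) ∧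
      v * (v - 1) ≤ (lam + 2) * Set.ncard {g : G | ∃ x y : Fin v, x ≠ y ∧ f x + f y = g} := by
  classical
  have hinj := inj hD (by omega) (by omega) hf
  have hfew := few_ordered hD.size hD.pair hD.meet hlam h3 hf hinj
  refine ⟨hinj, ?_, ?_⟩
  · intro g
    have h1 : {q : Fin v × Fin v | q.1 ≠ q.2 ∧ f q.1 + f q.2 = g} =
        ((univ : Finset (Fin v)).offDiag.filter (fun q => f q.1 + f q.2 = g) : Finset _) := by
      ext q
      simp
    rw [h1, Set.ncard_coe_finset]
    exact hfew g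
  · have h1 : {g : G | ∃ x y : Fin v, x ≠ y ∧ f x + f y = g} =
        ((univ : Finset (Fin v)).offDiag.image (fun q => f q.1 + f q.2) : Finset _) := by
      ext g
      simp
    rw [h1, Set.ncard_coe_finset]
    exact card_sums _ hfew

/-- groups of order at most `C v ^ (2 - ε)` detect only designs with boundedly many points -/
theorem order_bound (lam : ℕ) (hlam : 2 ≤ lam) (ε C : ℝ) (hε : 0 < ε) :
    ∃ N : ℕ, ∀ (v k : ℕ) (ι : Type) [Fintype ι] (B : ι → Finset (Fin v)) (G : Type)
      [AddCommGroup G] [Fintype G] (f : Fin v → G), IsMeetDesign v k lam B → lam + 3 ≤ k →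
      SumDetected k B f → (Fintype.card G : ℝ) ≤ C * (v : ℝ) ^ (2 - ε) → v ≤ N := by
  classical
  obtain ⟨M, hM⟩ := Filter.eventually_atTop.1
    ((tendsto_rpow_atTop hε).eventually_gt_atTop (2 * (lam + 2) * C))
  refine ⟨⌈M⌉₊, ?_⟩
  intro v k ι _ B G _ _ f hD h hf hG
  have hkv := hD.lt
  have hk2 := hD.two_le
  obtain ⟨-, -, h1⟩ := pairs_theorem hD hlam h hf
  have h2 : Set.ncard {g : G | ∃ x y : Fin v, x ≠ y ∧ f x + f y = g} ≤ Fintype.card G := by
    rw [← Nat.card_eq_fintype_card]
    exact Set.ncard_le_card _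
  have h3 : v * (v - 1) ≤ (lam + 2) * Fintype.card G :=
    h1.trans (Nat.mul_le_mul_left _ h2)
  have h4 : (v : ℝ) * ((v : ℝ) - 1) ≤ ((lam : ℝ) + 2) * Fintype.card G := by
    have h5 : ((v * (v - 1) : ℕ) : ℝ) ≤ (((lam + 2) * Fintype.card G : ℕ) : ℝ) := by
      exact_mod_cast h3
    push_cast [Nat.cast_sub (by omega : 1 ≤ v)] at h5
    exact h5
  have hv2 : (2 : ℝ) ≤ v := by exact_mod_cast (by omega : 2 ≤ v)
  have hv0 : (0 : ℝ) < v := by linarith
  have h5 : (v : ℝ) ^ (2 - ε) * (v : ℝ) ^ ε = (v : ℝ) ^ 2 := by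
    rw [← Real.rpow_add hv0, sub_add_cancel, Real.rpow_two]
  have h6 : (v : ℝ) ^ ε ≤ 2 * (lam + 2) * C := by
    by_contra hcon
    push Not at hcon
    have hp1 : 0 < (v : ℝ) ^ (2 - ε) := Real.rpow_pos_of_pos hv0 _
    have h7 : (v : ℝ) ^ 2 ≤ 2 * ((v : ℝ) * ((v : ℝ) - 1)) := by nlinarith
    have h8 : 2 * ((v : ℝ) * ((v : ℝ) - 1)) ≤ 2 * (lam + 2) * C * (v : ℝ) ^ (2 - ε) := by
      have h9 : ((lam : ℝ) + 2) * Fintype.card G ≤ ((lam : ℝ) + 2) * (C * (v : ℝ) ^ (2 - ε)) :=
        mul_le_mul_of_nonneg_left hG (by positivity)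
      nlinarith
    have h9 : 2 * (lam + 2) * C * (v : ℝ) ^ (2 - ε) < (v : ℝ) ^ ε * (v : ℝ) ^ (2 - ε) :=
      mul_lt_mul_of_pos_right hcon hp1
    rw [mul_comm ((v : ℝ) ^ ε), h5] at h9
    linarith
  have h7 : (v : ℝ) < M := by
    by_contra hcon
    push Not at hcon
    exact absurd h6 (not_le.2 (hM v hcon))
  have h8 : (v : ℝ) ≤ ⌈M⌉₊ := h7.le.trans (Nat.le_ceil M)
  exact_mod_cast h8

theorem exponent_theorem {v k lam : ℕ} {ι : Type} [Fintype ι] {B : ι → Finset (Fin v)} {G : Type}
    [AddCommGroup G] [Fintype G] {f : Fin v → G} (hD : IsMeetDesign v k lam B) (hlam : 1 ≤ lam)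
    (hf : SumDetected k B f) (e : ℕ) (he : 1 ≤ e) (hexp : ∀ g : G, e • g = 0) :
    (k : ℝ) ≤ lam + 1 + e * Real.log (Fintype.card G) := by
  have hN : 1 ≤ Fintype.card G := Fintype.card_pos
  have hlog : 0 ≤ (e : ℝ) * Real.log (Fintype.card G) :=
    mul_nonneg (by positivity) (Real.log_nonneg (by exact_mod_cast hN))
  set m := ⌊(e : ℝ) * Real.log (Fintype.card G)⌋₊ + 1 with hm
  have hm1 : (e : ℝ) * Real.log (Fintype.card G) < m := by
    rw [hm]; push_cast; exact Nat.lt_floor_add_one _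
  have hm2 : (m : ℝ) ≤ 1 + e * Real.log (Fintype.card G) := by
    rw [hm]; push_cast
    have := Nat.floor_le hlog
    linarith
  have h1 := zero_sum_free hD hlam hf m (fun x =>
    zero_sum_exp e he hexp x (by
      rw [Fintype.card_fin]; exact log_bound _ e m hN he hm1))
  have h2 : (k : ℝ) ≤ lam + m := by exact_mod_cast h1
  linarith

theorem exponent_finiteness (lam : ℕ) (hlam : 1 ≤ lam) (ε C : ℝ) (hε : 0 < ε) :
    {q : ℕ × ℕ | ∃ (B : Fin q.1 → Finset (Fin q.1)) (G : Type) (_ : AddCommGroup G) (_ : Fintype G)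
      (f : Fin q.1 → G) (e : ℕ), 1 ≤ e ∧ (∀ g : G, e • g = 0) ∧
        IsSymmetricDesign q.1 q.2 lam B ∧ SumDetected q.2 B f ∧
        (e : ℝ) * Real.log (Fintype.card G) ≤ C * (q.1 : ℝ) ^ (1 / 2 - ε)}.Finite := by
  classical
  obtain ⟨M, hM⟩ := Filter.eventually_atTop.1
    ((tendsto_rpow_atTop hε).eventually_gt_atTop (2 * |C|))
  obtain ⟨M', hM'⟩ := Filter.eventually_atTop.1
    ((tendsto_rpow_atTop (by norm_num : (0 : ℝ) < 1 / 2)).eventually_gt_atTop (2 * ((lam : ℝ) + 1)))
  refine ((Set.finite_Iic (2 + ⌈M⌉₊ + ⌈M'⌉₊)).prod (Set.finite_Iic (2 + ⌈M⌉₊ + ⌈M'⌉₊))).subset ?_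
  rintro ⟨v, k⟩ ⟨B, G, _, _, f, e, he, hexp, hD, hf, hG⟩
  simp only at hD hf hG
  have hkv := hD.lt
  have hk2 := hD.two_le
  have hv : v ≤ 2 + ⌈M⌉₊ + ⌈M'⌉₊ := by
    by_contra hcon
    push Not at hcon
    have hvM : M ≤ v := (Nat.le_ceil M).trans (by exact_mod_cast (by omega : ⌈M⌉₊ ≤ v))
    have hvM' : M' ≤ v := (Nat.le_ceil M').trans (by exact_mod_cast (by omega : ⌈M'⌉₊ ≤ v))
    have h1 := hM v hvM
    have h2 := hM' v hvM'
    have h3 := exponent_theorem (hD.meetDesign hlam) hlam hf e he hexp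
    obtain ⟨-, h4⟩ := repl v k lam (by omega) hlam B hD.size hD.pair
    have h5 : v ≤ k * k := by
      have h6 : 1 * (v - 1) ≤ lam * (v - 1) := Nat.mul_le_mul_right _ hlam
      omega
    have hv0 : (0 : ℝ) < v := by exact_mod_cast (by omega : 0 < v)
    have h6 : (v : ℝ) ^ (1 / 2 : ℝ) ≤ k := by
      rw [← Real.sqrt_eq_rpow]
      refine Real.sqrt_le_iff.2 ⟨by positivity, ?_⟩
      rw [pow_two]
      exact_mod_cast h5
    have h7 : (v : ℝ) ^ (1 / 2 - ε) * (v : ℝ) ^ ε = (v : ℝ) ^ (1 / 2 : ℝ) := by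
      rw [← Real.rpow_add hv0, sub_add_cancel]
    have hp1 : 0 < (v : ℝ) ^ (1 / 2 - ε) := Real.rpow_pos_of_pos hv0 _
    have h8 : C * (v : ℝ) ^ (1 / 2 - ε) ≤ |C| * (v : ℝ) ^ (1 / 2 - ε) :=
      mul_le_mul_of_nonneg_right (le_abs_self C) hp1.le
    have h9 : 2 * |C| * (v : ℝ) ^ (1 / 2 - ε) < (v : ℝ) ^ ε * (v : ℝ) ^ (1 / 2 - ε) :=
      mul_lt_mul_of_pos_right h1 hp1
    rw [mul_comm ((v : ℝ) ^ ε), h7] at h9
    linarith
  exact ⟨hv, by simp only [Set.mem_Iic]; omega⟩

end Pool.Agent.Helper394.SD
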